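import Pool.Agent.H89.RT.Tz
import Pool.Agent.H20.TP.Ms

/-!
# [H24 RC Hl] THEOREM C (MP_e49dc9_ag): linear growth on a prime divisor with `P . P . S = 0`

`hl_core`: `e` additive, `0 ≤ e W` if `W` has a section on the surface `z`, `e P = 0`, `0 < e A`: `hz z (W P ^ n) ≤ C (n + 1)`.
`hl_z`: `P` nef, `T(P,P,S) = 0`.
-/

set_option autoImplicit false

namespace Pool.Agent.H24.RC

open Pool.Agent.H54.RV Pool.Agent.H83.TU Pool.Agent.H83.TK Pool.Agent.H20.TD Pool.Agent.H20.TP Pool.Agent.H41.TK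
open Pool.Agent.H24.VP (RR chS)

variable {k K : Type} [Field k] [Field K] [Algebra k K] {X : Mod k K} {r : ℕ}
  {ν : Cart X →* Multiplicative (Fin r → ℤ)} {T : Cart X → Cart X → Cart X → ℝ} {l : Cart X → ℝ} {c : ℝ} {TR : Tri3 r}
  {z : X.P} {S A : Cart X}

theorem hl_core [CharZero k] [T0Space X.P] (h : Hyp X) (hr : RR T l c)
    (htr : Algebra.trdeg k (X.kap z) = 2) (hS : SPr X z S) (hA : Ample A) {e : Cart X → ℝ}
    (he : ∀ U V, e (U * V) = e U + e V) (hnn : ∀ W, 0 < hz h.var z W → 0 ≤ e W) {P : Cart X} (hP : e P = 0)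
    (hpos : 0 < e A) (W : Cart X) : ∃ C : ℝ, 0 ≤ C ∧ ∀ n : ℕ, (hz h.var z (W * P ^ n) : ℝ) ≤ C * (n + 1) := by
  obtain ⟨m, k₂, K₂, i1, i2, i3, i4, C, φ, hm, hC, hφ, hle, hdg, -⟩ := Pool.Agent.H89.RT.crv_z h hr htr hS hA
  have hm1 : (1 : ℝ) ≤ m := by exact_mod_cast hm
  have he1 : e 1 = 0 := by
    have := he 1 1
    rw [mul_one] at this
    linarith
  have hinv : ∀ U, e U⁻¹ = -e U := fun U => by
    have := he U U⁻¹
    rw [mul_inv_cancel, he1] at this
    linarith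
  have hpow : ∀ U (n : ℕ), e (U ^ n) = n * e U := fun U n => by
    induction n with
    | zero => rw [pow_zero, he1, Nat.cast_zero, zero_mul]
    | succ n ih =>
      rw [pow_succ, he, ih]
      push_cast
      ring
  obtain ⟨j, hj⟩ := exists_nat_gt (e W / e A)
  rw [div_lt_iff₀ hpos] at hj
  obtain ⟨D, hD⟩ : ∃ D : ℝ, D = m * |T W A S| + m * |T P A S| + h0 (1 : Cart C) 1 := ⟨_, rfl⟩
  have hD0 : 0 ≤ D := by rw [hD]; positivity
  have hTA : 0 < T A A S := pos_srf h hr htr hS hA hA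
  refine ⟨j * D, by positivity, fun n => ?_⟩
  have hcur : ∀ i : ℕ, (h0 (φ (W * P ^ n * (A ^ (m * i))⁻¹)) 1 : ℝ) ≤ D * (n + 1) := by
    intro i
    have h1 := hdg (W * P ^ n * (A ^ (m * i))⁻¹)
    rw [hr.tri.add, hr.tri.add, hr.tri.inv, hr.tri.pow, hr.tri.pow] at h1
    push_cast at h1
    have hn0 : (0 : ℝ) ≤ n := Nat.cast_nonneg n
    have h2 : (m : ℝ) * (T W A S + n * T P A S + -(m * i * T A A S)) ≤ (m * |T W A S| + m * |T P A S|) * (n + 1) := by
      have h3 : (m : ℝ) * T W A S ≤ m * |T W A S| := mul_le_mul_of_nonneg_left (le_abs_self _) (by positivity)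
      have h4 : (m : ℝ) * (n * T P A S) ≤ m * (n * |T P A S|) :=
        mul_le_mul_of_nonneg_left (mul_le_mul_of_nonneg_left (le_abs_self _) hn0) (by positivity)
      have h5 : 0 ≤ (m : ℝ) * (m * i * T A A S) := by positivity
      have h6 : 0 ≤ (m : ℝ) * |T W A S| * n := by positivity
      have h7 : 0 ≤ (m : ℝ) * |T P A S| := by positivity
      nlinarith
    have h8 : (0 : ℝ) ≤ h0 (1 : Cart C) 1 := Nat.cast_nonneg _
    have h9 : 0 ≤ (m * |T W A S| + m * |T P A S|) * ((n : ℝ) + 1) := by positivity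
    rcases lt_or_ge (dg (φ (W * P ^ n * (A ^ (m * i))⁻¹))) 0 with h3 | h3
    · rw [h0_neg hC _ h3, Nat.cast_zero]
      positivity
    · have h4 := h0_le_dg hC _ h3
      have h5 : (h0 (φ (W * P ^ n * (A ^ (m * i))⁻¹)) 1 : ℝ) ≤
          (dg (φ (W * P ^ n * (A ^ (m * i))⁻¹)) : ℝ) + h0 (1 : Cart C) 1 := by exact_mod_cast h4
      rw [hD]
      rw [h1] at h5
      nlinarith
  have hstep : ∀ i : ℕ, (hz h.var z (W * P ^ n) : ℝ) ≤ hz h.var z (W * P ^ n * (A ^ (m * i))⁻¹) + i * (D * (n + 1)) := by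
    intro i
    induction i with
    | zero => simp
    | succ i ih =>
      have h1 := hle (W * P ^ n * (A ^ (m * i))⁻¹)
      have h2 : W * P ^ n * (A ^ (m * i))⁻¹ * (A ^ m)⁻¹ = W * P ^ n * (A ^ (m * (i + 1)))⁻¹ := by
        rw [mul_assoc, ← mul_inv, ← pow_add]
        rfl
      rw [h2] at h1
      have h3 : (hz h.var z (W * P ^ n * (A ^ (m * i))⁻¹) : ℝ) ≤ hz h.var z (W * P ^ n * (A ^ (m * (i + 1)))⁻¹) +
          h0 (φ (W * P ^ n * (A ^ (m * i))⁻¹)) 1 := by exact_mod_cast h1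
      have h4 := hcur i
      push_cast
      linarith
  have h1 := hstep j
  have h2 : hz h.var z (W * P ^ n * (A ^ (m * j))⁻¹) = 0 := by
    by_contra h3
    have h4 := hnn _ (Nat.pos_of_ne_zero h3)
    rw [he, he, hinv, hpow, hpow, hP] at h4
    push_cast at h4
    have h5 : (j : ℝ) * e A ≤ m * j * e A := by
      have : 0 ≤ (j : ℝ) * e A := by positivity
      nlinarith
    linarith
  rw [h2, Nat.cast_zero, zero_add] at h1
  linarith

/-- **linear growth** on a prime divisor with `T(P,P,S) = 0` -/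
theorem hl_z [CharZero k] [IsAlgClosed k] [T0Space X.P] (h : Hyp X) (hr : RR T l c) (hν : NumR ν)
    (hT : ∀ U V W, TR (cR ν U) (cR ν V) (cR ν W) = T U V W)
    (htr : Algebra.trdeg k (X.kap z) = 2) (hS : SPr X z S) {P : Cart X} (hP : cR ν P ∈ closure (CC ν))
    (hPP : T P P S = 0) (W : Cart X) :
    ∃ C : ℝ, 0 ≤ C ∧ ∀ n : ℕ, (hz h.var z (W * P ^ n) : ℝ) ≤ C * (n + 1) := by
  obtain ⟨A₀, hA₀⟩ := h.amp
  obtain ⟨m, hm, hA, hb⟩ := exists_bpf h.var hA₀
  obtain ⟨A, hAe⟩ : ∃ A, A = A₀ ^ m := ⟨_, rfl⟩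
  rw [← hAe] at hA hb
  have hms := ms_nef h hr hν hT htr hS hP
  have hPeff : ∀ W, 0 < hz h.var z W → 0 ≤ T P W S := fun W hW => by
    rw [← hT]
    exact hms.eff W hW
  have hmA := ms_nef h hr hν hT htr hS (subset_closure (cc_amp h.var hν hA))
  have hAeff : ∀ W, 0 < hz h.var z W → 0 ≤ T A W S := fun W hW => by
    rw [← hT]
    exact hmA.eff W hW
  have hPA := hPeff A (by
    obtain ⟨Z, hZ⟩ := bpf_hasS h hb z
    exact hasS_pos h.var hA hZ)
  rcases hPA.eq_or_lt with h1 | h1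
  · exact hl_core h hr htr hS hA (e := fun W => T A W S) (fun U V => hr.tri.add2 _ _ _ _) hAeff
      (by rw [hr.tri.s12, ← h1]) (pos_srf h hr htr hS hA hA) W
  · exact hl_core h hr htr hS hA (e := fun W => T P W S) (fun U V => hr.tri.add2 _ _ _ _) hPeff hPP h1 W

/-- restriction to a prime divisor -/
theorem h0_le_z [CharZero k] (h : Hyp X) (hS : SPr X z S) (W : Cart X) :
    h0 W 1 ≤ h0 (W * S⁻¹) 1 + hz h.var z W := by
  obtain ⟨A, hA⟩ := h.amp
  have := Pool.Agent.H24.TK.fd h.var h.gen hA W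
  have := fd_sub h.var hA z (resD h.var z W)
  have h1 := ex_le h.var hS W 1
  rw [pow_one] at h1
  exact h1

end Pool.Agent.H24.RC
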