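import Pool.Agent.H24.RC.LowN
import Pool.Agent.H20.RT.Dis
import Pool.Agent.H20.RT.Loc

/-!
# [H24 RC LbS] THEOREM C (MP_e49dc9_ag), Lemma B: the tangent cone of `q` on a surface

`D` is in the tangent cone of `q` (`q` nef): for all `e > 0` there is `t` with `D + e A + t q` nef.  `S` a prime divisor, `z` its generic point.
`srf_t`: there is `t₀` with `deg_x (D + t q) ≥ 0` for all curves `x` on `S`, `t ≥ t₀`, if
`T(q,q,S) = 0`, `T(q,D,S) = 0`, `T(q,A,S) > 0` imply `T(q,S,S) < 0`.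
-/

set_option autoImplicit false

namespace Pool.Agent.H24.RC

open Pool.Agent.H54.RV Pool.Agent.H83.TU Pool.Agent.H83.TK Pool.Agent.H20.TD Pool.Agent.H20.TP Pool.Agent.H20.RT
open Pool.Agent.H24.VP (RR chS chi)
open Pool.Agent.H24.ZL (quad_ev lin_ev)
open Pool.Agent.H89.RT (bil_bd near_one big_s hc_le tz)

variable {k K : Type} [Field k] [Field K] [Algebra k K] {X : Mod k K} {r : ℕ}
  {ν : Cart X →* Multiplicative (Fin r → ℤ)} {T : Cart X → Cart X → Cart X → ℝ} {l : Cart X → ℝ} {c : ℝ} {TR : Tri3 r}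
  {z x : X.P} {S A : Cart X} {q D : Fin r → ℝ}

theorem eps_nn {a b : ℝ} (h : ∀ e : ℝ, 0 < e → 0 ≤ a + e * b) : 0 ≤ a := by
  by_contra hcon
  push Not at hcon
  have h1 := h (-a / (2 * (|b| + 1))) (by
    have : 0 < -a := by linarith
    positivity)
  have h2 : -a / (2 * (|b| + 1)) * b ≤ -a / 2 := by
    have h3 : -a / (2 * (|b| + 1)) * b ≤ -a / (2 * (|b| + 1)) * (|b| + 1) := by
      refine mul_le_mul_of_nonneg_left ?_ ?_
      · linarith [le_abs_self b]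
      · have : 0 ≤ -a := by linarith
        positivity
    have h4 : -a / (2 * (|b| + 1)) * (|b| + 1) = -a / 2 := by
      have : (|b| + 1) ≠ 0 := by positivity
      field_simp
    linarith
  linarith

/-- the degree on a curve of degree `0` -/
theorem tan_deg [CharZero k] (h : Hyp X) (hν : NumR ν) (hA : Ample A)
    (hD : ∀ e : ℝ, 0 < e → ∃ t : ℝ, D + e • cR ν A + t • q ∈ closure (CC ν))
    (hx : Algebra.trdeg k (X.kap x) = 1) (h0 : dR hν h.var x q = 0) : 0 ≤ dR hν h.var x D := by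
  refine eps_nn (b := dR hν h.var x (cR ν A)) fun e he => ?_
  obtain ⟨t, ht⟩ := hD e he
  have h1 := dR_nef hν h.var hA hx ht
  rw [map_add, map_add, map_smul, map_smul, h0, smul_eq_mul, smul_eq_mul, mul_zero, add_zero] at h1
  exact h1

/-- the test classes -/
theorem tan_test [CharZero k] [IsAlgClosed k] [T0Space X.P] (h : Hyp X) (hr : RR T l c) (hν : NumR ν)
    (hT : ∀ U V W, TR (cR ν U) (cR ν V) (cR ν W) = T U V W)
    (htr : Algebra.trdeg k (X.kap z) = 2) (hS : SPr X z S)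
    (hD : ∀ e : ℝ, 0 < e → ∃ t : ℝ, D + e • cR ν A + t • q ∈ closure (CC ν))
    {W : Cart X} (hW : 0 < hz h.var z W) (h0 : TR q (cR ν W) (cR ν S) = 0) : 0 ≤ TR D (cR ν W) (cR ν S) := by
  refine eps_nn (b := TR (cR ν A) (cR ν W) (cR ν S)) fun e he => ?_
  obtain ⟨t, ht⟩ := hD e he
  have h1 := (ms_nef h hr hν hT htr hS ht).eff W hW
  simp only [map_add, map_smul, LinearMap.add_apply, LinearMap.smul_apply, smul_eq_mul, h0] at h1
  linarith

/-- `T(q,D,S) ≥ 0` if `T(q,q,S) = 0` -/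
theorem tan_q [CharZero k] [IsAlgClosed k] [T0Space X.P] (h : Hyp X) (hr : RR T l c) (hν : NumR ν)
    (hT : ∀ U V W, TR (cR ν U) (cR ν V) (cR ν W) = T U V W)
    (htr : Algebra.trdeg k (X.kap z) = 2) (hS : SPr X z S) (hq : q ∈ closure (CC ν))
    (hD : ∀ e : ℝ, 0 < e → ∃ t : ℝ, D + e • cR ν A + t • q ∈ closure (CC ν))
    (h0 : TR q q (cR ν S) = 0) : 0 ≤ TR q D (cR ν S) := by
  refine eps_nn (b := TR q (cR ν A) (cR ν S)) fun e he => ?_
  obtain ⟨t, ht⟩ := hD e he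
  have h1 := ms_TT h hr hν hT htr hS (ms_nef h hr hν hT htr hS hq) (ms_nef h hr hν hT htr hS ht)
  simp only [map_add, map_smul, LinearMap.add_apply, LinearMap.smul_apply, smul_eq_mul, h0] at h1
  linarith

/-- case (i) -/
theorem srf_i [CharZero k] [IsAlgClosed k] [T0Space X.P] (h : Hyp X) (hr : RR T l c) (hν : NumR ν)
    (hT : ∀ U V W, TR (cR ν U) (cR ν V) (cR ν W) = T U V W)
    (htr : Algebra.trdeg k (X.kap z) = 2) (hS : SPr X z S) (hA : Ample A) (hq : q ∈ closure (CC ν))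
    (hD : ∀ e : ℝ, 0 < e → ∃ t : ℝ, D + e • cR ν A + t • q ∈ closure (CC ν))
    (h0 : TR q (cR ν A) (cR ν S) = 0) (t : ℝ) (hx : Cv z x) : 0 ≤ dR hν h.var x (D + t • q) := by
  have h1 := ms_zero h hr hν hT htr hS hA (ms_nef h hr hν hT htr hS hq) h0
  have h2 := h1.2 x hx
  rw [map_add, map_smul, h2, smul_zero, add_zero]
  exact tan_deg h hν hA hD hx.2 h2

/-- case (ii) -/
theorem srf_ii [CharZero k] [IsAlgClosed k] [T0Space X.P] (h : Hyp X) (hr : RR T l c) (hν : NumR ν)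
    (hT : ∀ U V W, TR (cR ν U) (cR ν V) (cR ν W) = T U V W)
    (htr : Algebra.trdeg k (X.kap z) = 2) (hS : SPr X z S) (hA : Ample A) (hq : q ∈ closure (CC ν))
    (hD : ∀ e : ℝ, 0 < e → ∃ t : ℝ, D + e • cR ν A + t • q ∈ closure (CC ν))
    (h1 : 0 < TR q (cR ν A) (cR ν S)) (h2 : TR q q (cR ν S) = 0 → 0 < TR q D (cR ν S)) :
    ∃ t₀ : ℝ, ∀ t ≥ t₀, ∀ x, Cv z x → 0 ≤ dR hν h.var x (D + t • q) := by
  obtain ⟨a, ha⟩ : ∃ a, a = cR ν A := ⟨_, rfl⟩
  obtain ⟨s, hs⟩ : ∃ s, s = cR ν S := ⟨_, rfl⟩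
  have hms := ms_nef h hr hν hT htr hS hq
  have hqq : 0 ≤ TR q q s := by rw [hs]; exact hms.sq
  rw [← ha, ← hs] at h1
  rw [← hs] at h2
  have hsym : ∀ u v, TR u v s = TR v u s := fun u v => tr_s12 hr hν hT u v s
  -- the big class
  obtain ⟨ε, t₁, hε, hb1, hb2⟩ : ∃ ε t₁ : ℝ, 0 < ε ∧ 0 < TR (D + t₁ • q - ε • a) a s ∧
      0 < TR (D + t₁ • q - ε • a) (D + t₁ • q - ε • a) s := by
    have e1 : ∀ ε t : ℝ, TR (D + t • q - ε • a) a s = t * TR q a s + (TR D a s - ε * TR a a s) := fun ε t => by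
      simp only [map_add, map_sub, map_smul, LinearMap.add_apply, LinearMap.sub_apply, LinearMap.smul_apply, smul_eq_mul]
      ring
    have e2 : ∀ ε t : ℝ, TR (D + t • q - ε • a) (D + t • q - ε • a) s =
        t ^ 2 * TR q q s + t * (2 * (TR q D s - ε * TR q a s)) + TR (D - ε • a) (D - ε • a) s := fun ε t => by
      simp only [map_add, map_sub, map_smul, LinearMap.add_apply, LinearMap.sub_apply, LinearMap.smul_apply, smul_eq_mul]
      rw [hsym D q, hsym a q]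
      ring
    rcases hqq.eq_or_lt with h3 | h3
    · have h4 := h2 h3.symm
      obtain ⟨ε, hε⟩ : ∃ ε, ε = TR q D s / (2 * TR q a s) := ⟨_, rfl⟩
      have hε0 : 0 < ε := by rw [hε]; positivity
      have hε1 : TR q D s - ε * TR q a s = TR q D s / 2 := by
        rw [hε]
        field_simp
        ring
      obtain ⟨x₁, hx₁⟩ := lin_ev h1 (-(TR D a s - ε * TR a a s))
      obtain ⟨x₂, hx₂⟩ := lin_ev h4 (-TR (D - ε • a) (D - ε • a) s)
      refine ⟨ε, max x₁ x₂, hε0, ?_, ?_⟩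
      · rw [e1]
        linarith [hx₁ _ (le_max_left x₁ x₂)]
      · rw [e2, ← h3, hε1]
        linarith [hx₂ _ (le_max_right x₁ x₂)]
    · obtain ⟨x₁, hx₁⟩ := lin_ev h1 (-(TR D a s - 1 * TR a a s))
      obtain ⟨x₂, hx₂⟩ := quad_ev h3 (-(2 * (TR q D s - 1 * TR q a s))) (-TR (D - (1 : ℝ) • a) (D - (1 : ℝ) • a) s)
      refine ⟨1, max x₁ x₂, one_pos, ?_, ?_⟩
      · rw [e1]
        linarith [hx₁ _ (le_max_left x₁ x₂)]
      · rw [e2]
        linarith [hx₂ _ (le_max_right x₁ x₂)]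
  rw [ha, hs] at hb1 hb2
  obtain ⟨N₀, hN₀⟩ := big_s h hr hν hT htr hS hA hb1 hb2 1
  rw [← ha] at hN₀
  -- the ball around `a`
  have hAC : a ∈ CC ν := by rw [ha]; exact cc_amp h.var hν hA
  obtain ⟨ρ, hρ, hball⟩ := Metric.isOpen_iff.1 (cc_open (ν := ν)) _ hAC
  obtain ⟨N, hN⟩ : ∃ N, N = max 1 (max N₀ (2 / (ε * ρ))) := ⟨_, rfl⟩
  have hN1 : 1 ≤ N := by rw [hN]; exact le_max_left _ _
  have hN2 : N₀ ≤ N := by rw [hN]; exact (le_max_left _ _).trans (le_max_right _ _)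
  have hN3 : 2 / (ε * ρ) ≤ N := by rw [hN]; exact (le_max_right _ _).trans (le_max_right _ _)
  rw [div_le_iff₀ (by positivity)] at hN3
  obtain ⟨W, hW⟩ := near_one (X := X) hν (N • (D + t₁ • q - ε • a))
  obtain ⟨Z, hZ⟩ := hasS_of_pos h.var (hN₀ N W hN2 hW)
  obtain ⟨w, hw⟩ : ∃ w, w = cR ν W - N • (D + t₁ • q - ε • a) := ⟨_, rfl⟩
  rw [← hw] at hW
  have hcc : (N * ε) • a - w ∈ CC ν := by
    have h3 : (N * ε) • a - w = (N * ε) • (a - (N * ε)⁻¹ • w) := by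
      rw [smul_sub, smul_smul, mul_inv_cancel₀ (by positivity), one_smul]
    rw [h3]
    refine cc_smul (by positivity) (hball ?_)
    rw [Metric.mem_ball, dist_eq_norm, sub_sub_cancel_left, norm_neg, norm_smul, Real.norm_eq_abs,
      abs_of_pos (by positivity)]
    have h4 : (N * ε)⁻¹ * ‖w‖ ≤ (N * ε)⁻¹ * 1 := mul_le_mul_of_nonneg_left hW (by positivity)
    refine h4.trans_lt ?_
    rw [mul_one, inv_lt_iff_one_lt_mul₀ (by positivity)]
    nlinarith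
  have hout : ∀ x, Cv z x → x ∉ Z → 0 < dR hν h.var x (D + t₁ • q) := by
    intro x hx hxZ
    have h3 := dz_out h.var hA hZ hx hxZ
    have h4 : (0 : ℝ) ≤ dR hν h.var x (cR ν W) := by
      rw [dR_ci hν h.var h.amp hx.2]
      exact_mod_cast h3
    have h5 := dR_cc hν h.var hA hx.2 hcc
    have h6 : cR ν W = N • (D + t₁ • q) - ((N * ε) • a - w) := by
      rw [hw]
      module
    rw [h6, map_sub, map_smul, smul_eq_mul] at h4
    have h7 : 0 < N * dR hν h.var x (D + t₁ • q) := by linarith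
    exact (pos_iff_pos_of_mul_pos h7).1 (by linarith)
  have htr' : Algebra.trdeg k (X.kap z) = ((1 + 1 : ℕ) : Cardinal) := by
    rw [htr]
    norm_num
  have hfin := zst_fin h.var htr' hZ
  have hev : ∀ᶠ t : ℝ in Filter.atTop, ∀ x ∈ {x : X.P | x ∈ Z ∧ Algebra.trdeg k (X.kap x) = ((1 : ℕ) : Cardinal)},
      0 ≤ dR hν h.var x (D + t • q) := by
    rw [Filter.eventually_all_finite hfin]
    rintro x ⟨-, hx⟩
    rw [Nat.cast_one] at hx
    rcases (dR_nef hν h.var hA hx hq).eq_or_lt with h3 | h3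
    · refine Filter.Eventually.of_forall fun t => ?_
      rw [map_add, map_smul, ← h3, smul_zero, add_zero]
      exact tan_deg h hν hA hD hx h3.symm
    · filter_upwards [Filter.eventually_ge_atTop (-dR hν h.var x D / dR hν h.var x q)] with t ht
      rw [div_le_iff₀ h3] at ht
      rw [map_add, map_smul, smul_eq_mul]
      linarith
  obtain ⟨t₂, ht₂⟩ := Filter.eventually_atTop.1 hev
  refine ⟨max t₁ t₂, fun t ht x hx => ?_⟩
  by_cases hxZ : x ∈ Z
  · exact ht₂ t ((le_max_right _ _).trans ht) x ⟨hxZ, by rw [hx.2, Nat.cast_one]⟩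
  · have h3 := hout x hx hxZ
    have h4 := dR_nef hν h.var hA hx.2 hq
    have h5 : D + t • q = D + t₁ • q + (t - t₁) • q := by module
    rw [h5, map_add, map_smul, smul_eq_mul]
    have h6 : 0 ≤ t - t₁ := by
      have := (le_max_left t₁ t₂).trans ht
      linarith
    have := mul_nonneg h6 h4
    linarith

/-- case (iii) -/
theorem srf_iii [CharZero k] [IsAlgClosed k] [T0Space X.P] (h : Hyp X) (hr : RR T l c) (hν : NumR ν)
    (hT : ∀ U V W, TR (cR ν U) (cR ν V) (cR ν W) = T U V W)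
    (htr : Algebra.trdeg k (X.kap z) = 2) (hS : SPr X z S) (hA : Ample A) (hq : q ∈ closure (CC ν))
    (hD : ∀ e : ℝ, 0 < e → ∃ t : ℝ, D + e • cR ν A + t • q ∈ closure (CC ν))
    (h1 : 0 < TR q (cR ν A) (cR ν S)) (h2 : TR q q (cR ν S) = 0) (h3 : TR q D (cR ν S) = 0)
    (h4 : TR q (cR ν S) (cR ν S) < 0) :
    ∃ t₀ : ℝ, ∀ t ≥ t₀, ∀ x, Cv z x → 0 ≤ dR hν h.var x (D + t • q) := by
  have hms := ms_nef h hr hν hT htr hS hq
  obtain ⟨τ, δ, a0, hτ, hδ, ha0⟩ := th_dis h hr hν hT htr hS hms h1 h2 h4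
  obtain ⟨a, ha⟩ : ∃ a, a = cR ν A := ⟨_, rfl⟩
  obtain ⟨s, hs⟩ : ∃ s, s = cR ν S := ⟨_, rfl⟩
  have hsym : ∀ u v, TR u v s = TR v u s := fun u v => tr_s12 hr hν hT u v s
  have hδq : rv δ ⬝ᵥ q = 0 := by
    have h5 := hδ q
    rw [h2] at h5
    rcases mul_eq_zero.1 h5.symm with h6 | h6
    · exact absurd h6 hτ.ne'
    · exact h6
  have hδD : rv δ ⬝ᵥ D = 0 := by
    have h5 := hδ D
    rw [h3] at h5
    rcases mul_eq_zero.1 h5.symm with h6 | h6
    · exact absurd h6 hτ.ne'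
    · exact h6
  -- lattice points in the kernel
  obtain ⟨M₁, hM₁, hb1⟩ : ∃ M₁ : ℝ, 0 ≤ M₁ ∧ ∀ v : Fin r → ℝ, ‖v‖ ≤ 1 → |rv δ ⬝ᵥ v| ≤ M₁ :=
    ball_bd (f := fun v => rv δ ⬝ᵥ v) (by unfold dotProduct; fun_prop) 1
  obtain ⟨C₁, hC₁⟩ : ∃ C₁, C₁ = 1 + M₁ * ‖rv a0‖ := ⟨_, rfl⟩
  have hC₁0 : 0 ≤ C₁ := by rw [hC₁]; positivity
  have hlat : ∀ y : Fin r → ℝ, rv δ ⬝ᵥ y = 0 → ∃ W : Cart X, ‖cR ν W - y‖ ≤ C₁ ∧ rv δ ⬝ᵥ cR ν W = 0 := by
    intro y hy
    obtain ⟨W₁, hW₁⟩ := near_one (X := X) hν y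
    obtain ⟨E, hE⟩ := ci_surj hν a0
    have hEc : cR ν E = rv a0 := by
      change rv (ci ν E) = _
      rw [hE]
    obtain ⟨n, hn⟩ : ∃ n : ℤ, n = δ ⬝ᵥ ci ν W₁ := ⟨_, rfl⟩
    have hnR : (n : ℝ) = rv δ ⬝ᵥ cR ν W₁ := by
      rw [hn]
      unfold dotProduct
      push_cast
      rfl
    have hc : cR ν (W₁ * (E ^ n)⁻¹) = cR ν W₁ - (n : ℝ) • rv a0 := by
      change rv (ci ν (W₁ * (E ^ n)⁻¹)) = _
      rw [ci_mul, ci_inv, ci_zpow, rv_add, rv_neg, rv_smul, hE, sub_eq_add_neg]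
    refine ⟨W₁ * (E ^ n)⁻¹, ?_, ?_⟩
    · rw [hc]
      have h5 : cR ν W₁ - (n : ℝ) • rv a0 - y = (cR ν W₁ - y) - (n : ℝ) • rv a0 := by abel
      rw [h5, hC₁]
      refine (norm_sub_le _ _).trans (add_le_add hW₁ ?_)
      rw [norm_smul, Real.norm_eq_abs]
      refine mul_le_mul_of_nonneg_right ?_ (norm_nonneg _)
      have h6 := hb1 (cR ν W₁ - y) hW₁
      rw [dotProduct_sub, hy, sub_zero, ← hnR] at h6
      exact h6
    · rw [hc, dotProduct_sub, dotProduct_smul, ha0, ← hnR]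
      simp
  obtain ⟨B, hB0, hB⟩ := bil_bd TR s
  -- `T(D,D,S) ≥ 0`
  have key : ∀ j : ℝ, 0 ≤ j → -(B * ‖D‖ * C₁) ≤ j * TR D D s := by
    intro j hj
    obtain ⟨x₁, hx₁⟩ := lin_ev h1 (|T A S S| + j * |TR D a s| + B * C₁ * ‖a‖)
    obtain ⟨Q, hQ⟩ : ∃ Q, Q = B * (j * ‖D‖ + C₁) * (j * ‖D‖ + C₁) / 2 + B * (j * ‖D‖ + C₁) * ‖s‖ / 2 + |T S S S / 6 + l S| := ⟨_, rfl⟩
    obtain ⟨x₂, hx₂⟩ := lin_ev (show 0 < -TR q (cR ν S) (cR ν S) / 2 by linarith) Q
    obtain ⟨t, ht⟩ : ∃ t, t = max x₁ x₂ := ⟨_, rfl⟩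
    have ht1 := hx₁ t (by rw [ht]; exact le_max_left _ _)
    have ht2 := hx₂ t (by rw [ht]; exact le_max_right _ _)
    obtain ⟨W, hW, hWδ⟩ := hlat (t • q + j • D) (by
      rw [dotProduct_add, dotProduct_smul, dotProduct_smul, hδq, hδD]
      simp)
    obtain ⟨w, hw⟩ : ∃ w, w = cR ν W - (t • q + j • D) := ⟨_, rfl⟩
    have hWw : cR ν W = t • q + (j • D + w) := by rw [hw]; abel
    rw [← hw] at hW
    have hqW : TR q (cR ν W) s = 0 := by
      rw [hs, hδ, hWδ, mul_zero]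
    rw [← hs] at h2 h3 h4 ht2 h1 ht1
    rw [← ha] at h1 ht1
    obtain ⟨u, hu⟩ : ∃ u, u = j • D + w := ⟨_, rfl⟩
    rw [← hu] at hWw
    have hqu : TR q u s = 0 := by
      rw [hWw, map_add, map_smul, LinearMap.add_apply, LinearMap.smul_apply, h2, smul_zero, zero_add] at hqW
      exact hqW
    have hun : ‖u‖ ≤ j * ‖D‖ + C₁ := by
      rw [hu]
      refine (norm_add_le _ _).trans (add_le_add ?_ hW)
      rw [norm_smul, Real.norm_eq_abs, abs_of_nonneg hj]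
    have hWW : T W W S = TR u u s := by
      rw [← hT, ← hs, hWw]
      simp only [map_add, map_smul, LinearMap.add_apply, LinearMap.smul_apply, smul_eq_mul, hsym u q, hqu, h2]
      ring
    have hWA : T W A S = t * TR q a s + j * TR D a s + TR w a s := by
      rw [← hT, ← hs, ← ha, hWw, hu]
      simp only [map_add, map_smul, LinearMap.add_apply, LinearMap.smul_apply, smul_eq_mul]
      ring
    have hWS : T W S S = t * TR q s s + TR u s s := by
      rw [← hT, ← hs, hWw]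
      simp only [map_add, map_smul, LinearMap.add_apply, LinearMap.smul_apply, smul_eq_mul]
    have b1 := abs_le.1 (hB w a)
    have b2 := abs_le.1 (hB u u)
    have b3 := abs_le.1 (hB u s)
    have c1 : B * ‖w‖ * ‖a‖ ≤ B * C₁ * ‖a‖ := by gcongr
    have c2 : B * ‖u‖ * ‖u‖ ≤ B * (j * ‖D‖ + C₁) * (j * ‖D‖ + C₁) := by gcongr
    have c3 : B * ‖u‖ * ‖s‖ ≤ B * (j * ‖D‖ + C₁) * ‖s‖ := by gcongr
    have h5 := tz h hr htr hS hA W (by
      rw [hWA]
      have := le_abs_self (T A S S)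
      have h6 : -(j * |TR D a s|) ≤ j * TR D a s := by
        have := mul_le_mul_of_nonneg_left (neg_abs_le (TR D a s)) hj
        linarith
      linarith [b1.1])
    have h6 : chS T l S W = T W W S / 2 - T W S S / 2 + T S S S / 6 + l S := rfl
    rw [h6, hWW, hWS] at h5
    have h7 := neg_abs_le (T S S S / 6 + l S)
    have h8 : (0 : ℝ) < hz h.var z W := by
      refine lt_of_lt_of_le ?_ h5
      rw [hQ] at ht2
      linarith [b2.1, b3.2]
    have h9 := tan_test h hr hν hT htr hS hD (W := W) (by exact_mod_cast h8) (by rw [← hs]; exact hqW)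
    have e9 : TR D (cR ν W) s = j * TR D D s + TR D w s := by
      rw [hWw, hu]
      simp only [map_add, map_smul, LinearMap.add_apply, LinearMap.smul_apply, smul_eq_mul, hsym D q, h3]
      ring
    rw [← hs, e9] at h9
    have b4 := abs_le.1 (hB D w)
    have c4 : B * ‖D‖ * ‖w‖ ≤ B * ‖D‖ * C₁ := by gcongr
    linarith [b4.2]
  rw [← hs] at h2 h3 h1
  rw [← ha] at h1
  have hDD : 0 ≤ TR D D s := by
    by_contra hcon
    push Not at hcon
    obtain ⟨x₁, hx₁⟩ := lin_ev (show 0 < -TR D D s by linarith) (B * ‖D‖ * C₁)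
    have h5 := key (max 0 x₁) (le_max_left _ _)
    have h6 := hx₁ (max 0 x₁) (le_max_right _ _)
    linarith
  obtain ⟨κ, hκ⟩ : ∃ κ, κ = TR D a s / TR q a s := ⟨_, rfl⟩
  have hκ1 : TR D a s = κ * TR q a s := by
    rw [hκ, div_mul_cancel₀ _ h1.ne']
  refine ⟨-κ, fun t ht x hx => ?_⟩
  have h5 : dR hν h.var x (D - κ • q) = 0 := by
    refine Pool.Agent.H89.RT.hc_nn h hr hν hT htr hS hA (v := D - κ • q) ?_ ?_ hx
    · rw [← hs, ← ha]
      simp only [map_sub, map_smul, LinearMap.sub_apply, LinearMap.smul_apply, smul_eq_mul, hκ1, sub_self]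
    · rw [← hs]
      simp only [map_sub, map_smul, LinearMap.sub_apply, LinearMap.smul_apply, smul_eq_mul, h2, h3, hsym D q]
      linarith
  have h6 := dR_nef hν h.var hA hx.2 hq
  have h7 : D + t • q = (D - κ • q) + (t + κ) • q := by module
  rw [h7, map_add, map_smul, smul_eq_mul, h5, zero_add]
  exact mul_nonneg (by linarith) h6

/-- **all cases** -/
theorem srf_t [CharZero k] [IsAlgClosed k] [T0Space X.P] (h : Hyp X) (hr : RR T l c) (hν : NumR ν)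
    (hT : ∀ U V W, TR (cR ν U) (cR ν V) (cR ν W) = T U V W)
    (htr : Algebra.trdeg k (X.kap z) = 2) (hS : SPr X z S) (hA : Ample A) (hq : q ∈ closure (CC ν))
    (hD : ∀ e : ℝ, 0 < e → ∃ t : ℝ, D + e • cR ν A + t • q ∈ closure (CC ν))
    (h4 : 0 < TR q (cR ν A) (cR ν S) → TR q q (cR ν S) = 0 → TR q D (cR ν S) = 0 → TR q (cR ν S) (cR ν S) < 0) :
    ∃ t₀ : ℝ, ∀ t ≥ t₀, ∀ x, Cv z x → 0 ≤ dR hν h.var x (D + t • q) := by
  rcases (tpa_nn h hr hν hT htr hS hA hq).eq_or_lt with h1 | h1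
  · exact ⟨0, fun t _ x hx => srf_i h hr hν hT htr hS hA hq hD h1.symm t hx⟩
  · by_cases h2 : TR q q (cR ν S) = 0 ∧ TR q D (cR ν S) = 0
    · exact srf_iii h hr hν hT htr hS hA hq hD h1 h2.1 h2.2 (h4 h1 h2.1 h2.2)
    · refine srf_ii h hr hν hT htr hS hA hq hD h1 fun h3 => ?_
      refine lt_of_le_of_ne (tan_q h hr hν hT htr hS hq hD h3) fun h5 => h2 ⟨h3, h5.symm⟩

end Pool.Agent.H24.RC
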