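import Pool.Agent.H24.RC.Hl
import Pool.Agent.H20.RT.Iso

/-!
# [H24 RC FOne] THEOREM C (MP_e49dc9_ag): vertical divisors are in multiples of `P`

`f1_bd`: `D` effective with `T(P,P,D) = 0`: `h0 (W P ^ n) ≤ h0 (W P ^ n D⁻¹) + C (n + 1)`.  `f1`: `P ^ n D⁻¹` has a section for large `n`.
-/

set_option autoImplicit false

namespace Pool.Agent.H24.RC

open Pool.Agent.H54.RV Pool.Agent.H83.TU Pool.Agent.H83.TK Pool.Agent.H20.TD Pool.Agent.H20.TP Pool.Agent.H20.RT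
open Pool.Agent.H24.VP (RR chS)

variable {k K : Type} [Field k] [Field K] [Algebra k K] {X : Mod k K} {r : ℕ}
  {ν : Cart X →* Multiplicative (Fin r → ℤ)} {T : Cart X → Cart X → Cart X → ℝ} {l : Cart X → ℝ} {c : ℝ} {TR : Tri3 r}
  {z : X.P} {S A : Cart X}

theorem h0_triv {U : Cart X} (hU : Effective U) (hU' : Effective U⁻¹) (V : Cart X) : h0 (V * U⁻¹) 1 = h0 V 1 := by
  have h1 : secL (V * U⁻¹) 1 = secL V 1 := by
    ext s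
    refine ⟨fun hs x => ?_, fun hs x => ?_⟩
    · have h2 := (X.O x).mul_mem (hs x) (hU x)
      have e : s * (V * U⁻¹).eq x ^ 1 * U.eq x = s * V.eq x ^ 1 := by
        have := U.ne x
        rw [mul_eq, inv_eq]
        field_simp
      rwa [e] at h2
    · have h2 := (X.O x).mul_mem (hs x) (hU' x)
      have e : s * V.eq x ^ 1 * (U⁻¹).eq x = s * (V * U⁻¹).eq x ^ 1 := by
        rw [mul_eq, pow_one, pow_one, mul_assoc]
      rwa [e] at h2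
  unfold h0
  rw [h1]

theorem f1_list [CharZero k] [IsAlgClosed k] [T0Space X.P] (h : Hyp X) (hr : RR T l c) (hν : NumR ν)
    (hT : ∀ U V W, TR (cR ν U) (cR ν V) (cR ν W) = T U V W) {P : Cart X} (hP : cR ν P ∈ closure (CC ν))
    (Ls : List (PDiv X × Cart X)) (hLs : ∀ p ∈ Ls, SPr X p.1.η p.2 ∧ T P P p.2 = 0) (W : Cart X) :
    ∃ C : ℝ, 0 ≤ C ∧ ∀ n : ℕ, (h0 (W * P ^ n) 1 : ℝ) ≤ h0 (W * P ^ n * (Ls.map Prod.snd).prod⁻¹) 1 + C * (n + 1) := by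
  induction Ls generalizing W with
  | nil => exact ⟨0, le_rfl, fun n => by simp⟩
  | cons q Ls ih =>
    obtain ⟨hS, hq⟩ := hLs q List.mem_cons_self
    obtain ⟨C₁, hC₁, h1⟩ := ih (fun p hp => hLs p (List.mem_cons_of_mem _ hp)) (W * q.2⁻¹)
    obtain ⟨C₂, hC₂, h2⟩ := hl_z h hr hν hT (trdeg_pdiv h q.1) hS hP hq W
    refine ⟨C₁ + C₂, by positivity, fun n => ?_⟩
    have h3 := h1 n
    have h4 := h2 n
    have h5 := h0_le_z h hS (W * P ^ n)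
    have e1 : W * P ^ n * q.2⁻¹ = W * q.2⁻¹ * P ^ n := by rw [mul_right_comm]
    have e2 : W * P ^ n * ((q :: Ls).map Prod.snd).prod⁻¹ = W * q.2⁻¹ * P ^ n * (Ls.map Prod.snd).prod⁻¹ := by
      rw [List.map_cons, List.prod_cons, mul_inv, ← mul_assoc, e1]
    rw [e1] at h5
    rw [e2]
    have h6 : (h0 (W * P ^ n) 1 : ℝ) ≤ h0 (W * q.2⁻¹ * P ^ n) 1 + hz h.var q.1.η (W * P ^ n) := by exact_mod_cast h5
    linarith

theorem f1_bd [CharZero k] [IsAlgClosed k] [T0Space X.P] (h : Hyp X) (hr : RR T l c) (hν : NumR ν)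
    (hT : ∀ U V W, TR (cR ν U) (cR ν V) (cR ν W) = T U V W) {P : Cart X} (hP : cR ν P ∈ closure (CC ν))
    {D : Cart X} (hD : Effective D) (hPD : TR (cR ν P) (cR ν P) (cR ν D) = 0) (W : Cart X) :
    ∃ C : ℝ, 0 ≤ C ∧ ∀ n : ℕ, (h0 (W * P ^ n) 1 : ℝ) ≤ h0 (W * P ^ n * D⁻¹) 1 + C * (n + 1) := by
  obtain ⟨Ls, U, h1, h2, h3, rfl⟩ := Pool.Agent.H24.VP.fac_eff h hr hD
  rw [cR_mul, map_add, tr_triv h hr hν hT h2 h3, add_zero, list_tr] at hPD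
  have h4 : ∀ q ∈ Ls, 0 ≤ TR (cR ν P) (cR ν P) (cR ν q.2) := fun q hq => tr_srf h hr hν hT hP q.1 (h1 q hq)
  have h5 : ∀ q ∈ Ls, T P P q.2 = 0 := by
    intro q hq
    rw [← hT]
    refine le_antisymm ?_ (h4 q hq)
    have h6 := List.single_le_sum (l := Ls.map fun x => TR (cR ν P) (cR ν P) (cR ν x.2)) (fun y hy => by
      obtain ⟨x, hx, rfl⟩ := List.mem_map.1 hy
      exact h4 x hx) _ (List.mem_map.2 ⟨q, hq, rfl⟩)
    rwa [hPD] at h6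
  obtain ⟨C, hC, h6⟩ := f1_list h hr hν hT hP Ls (fun q hq => ⟨h1 q hq, h5 q hq⟩) W
  refine ⟨C, hC, fun n => ?_⟩
  rw [mul_inv, ← mul_assoc, h0_triv h2 h3]
  exact h6 n

/-- **F1** -/
theorem f1 [CharZero k] [IsAlgClosed k] [T0Space X.P] (h : Hyp X) (hr : RR T l c) (hν : NumR ν)
    (hT : ∀ U V W, TR (cR ν U) (cR ν V) (cR ν W) = T U V W) {P : Cart X} (hP : cR ν P ∈ closure (CC ν))
    {c₀ : ℝ} (hc₀ : 0 < c₀) (hgro : ∃ n₀ : ℕ, ∀ n : ℕ, n₀ ≤ n → c₀ * (n : ℝ) ^ 2 ≤ h0 (P ^ n) 1)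
    {D : Cart X} (hD : Effective D) (hPD : TR (cR ν P) (cR ν P) (cR ν D) = 0) :
    ∃ n₀ : ℕ, ∀ n ≥ n₀, 0 < h0 (P ^ n * D⁻¹) 1 := by
  obtain ⟨C, hC, h1⟩ := f1_bd h hr hν hT hP hD hPD 1
  obtain ⟨n₁, h2⟩ := hgro
  obtain ⟨n₂, hn₂⟩ := exists_nat_gt ((2 * C) / c₀)
  rw [div_lt_iff₀ hc₀] at hn₂
  refine ⟨n₁ + n₂ + 1, fun n hn => ?_⟩
  have h3 := h1 n
  have h4 := h2 n (by omega)
  rw [one_mul] at h3
  have h5 : (n₂ : ℝ) ≤ n := by exact_mod_cast (show n₂ ≤ n by omega)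
  have h6 : (1 : ℝ) ≤ n := by exact_mod_cast (show 1 ≤ n by omega)
  have h7 : C * ((n : ℝ) + 1) < c₀ * n ^ 2 := by
    have h8 : 2 * C < n * c₀ := by nlinarith
    nlinarith
  have h8 : (0 : ℝ) < h0 (P ^ n * D⁻¹) 1 := by linarith
  exact_mod_cast h8

end Pool.Agent.H24.RC
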