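import Pool.Agent.H24.RC.LbS
import Pool.Agent.H89.RS.Klm

/-!
# [H24 RC LemB] THEOREM C (MP_e49dc9_ag): Lemma B

`q` nef, `T(q,q,q) = 0`, `D` in the tangent cone of `q`, `T(q,q,D) > 0`: `D + t q` is nef and big for large `t`.
-/

set_option autoImplicit false

namespace Pool.Agent.H24.RC

open Pool.Agent.H54.RV Pool.Agent.H83.TU Pool.Agent.H83.TK Pool.Agent.H20.TD Pool.Agent.H20.TP Pool.Agent.H20.RT
open Pool.Agent.H24.VP (RR chS chi)
open Pool.Agent.H24.ZL (quad_ev lin_ev)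
open Pool.Agent.H89.RT (near_one)

variable {k K : Type} [Field k] [Field K] [Algebra k K] {X : Mod k K} {r : ℕ}
  {ν : Cart X →* Multiplicative (Fin r → ℤ)} {T : Cart X → Cart X → Cart X → ℝ} {l : Cart X → ℝ} {c : ℝ} {TR : Tri3 r}
  {z x : X.P} {S A : Cart X} {q D : Fin r → ℝ}

/-- `T(q,S,S) < 0` -/
theorem qss_neg [CharZero k] [IsAlgClosed k] [T0Space X.P] (h : Hyp X) (hr : RR T l c) (hν : NumR ν)
    (hT : ∀ U V W, TR (cR ν U) (cR ν V) (cR ν W) = T U V W) (hA : Ample A) (hq : q ∈ closure (CC ν))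
    (hqq : 0 < TR q q (cR ν A)) (hqqq : TR q q q = 0) (hqD : 0 < TR q q D) {s : Fin r → ℝ}
    (h1 : 0 < TR q (cR ν A) s) (h2 : TR q q s = 0) (h3 : TR q D s = 0) : TR q s s < 0 := by
  have h4 : TR q s s ≤ 0 := hd_z h hr hν hT hA hq hqq h2
  refine lt_of_le_of_ne h4 fun h5 => ?_
  obtain ⟨κ, hκ⟩ : ∃ κ, κ = TR q (cR ν A) s / TR q q (cR ν A) := ⟨_, rfl⟩
  have hκ0 : 0 < κ := by rw [hκ]; positivity
  have e1 : TR q s (cR ν A) = TR q (cR ν A) s := tr_s23 hr hν hT _ _ _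
  have e2 : TR q s q = TR q q s := tr_s23 hr hν hT _ _ _
  have e3 : TR q s D = TR q D s := tr_s23 hr hν hT _ _ _
  have h6 := hd_eq h hr hν hT hq (L := cR ν A) (v := s - κ • q) (qaa_pos h hr hν hT hA hq hqq) (by
    simp only [map_sub, map_smul, LinearMap.sub_apply, LinearMap.smul_apply, smul_eq_mul, e1]
    rw [hκ, div_mul_cancel₀ _ hqq.ne', sub_self]) (by
    simp only [map_sub, map_smul, LinearMap.sub_apply, LinearMap.smul_apply, smul_eq_mul, e2, h2, h5, hqqq]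
    ring) D
  simp only [map_sub, map_smul, LinearMap.sub_apply, LinearMap.smul_apply, smul_eq_mul, e3, h3] at h6
  have := mul_pos hκ0 hqD
  linarith

theorem lem_b [CharZero k] [IsAlgClosed k] [T0Space X.P] (h : Hyp X) (hr : RR T l c) (hν : NumR ν)
    (hT : ∀ U V W, TR (cR ν U) (cR ν V) (cR ν W) = T U V W) {L : (Fin r → ℝ) →ₗ[ℝ] ℝ}
    (hL : ∀ D, L (cR ν D) = l D) (hA : Ample A) (hq : q ∈ closure (CC ν)) (hqqq : TR q q q = 0)
    (hD : ∀ e : ℝ, 0 < e → ∃ t : ℝ, D + e • cR ν A + t • q ∈ closure (CC ν)) (hqD : 0 < TR q q D) :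
    ∃ t₀ : ℝ, ∀ t ≥ t₀, D + t • q ∈ closure (CC ν) ∧ 0 < TR (D + t • q) (D + t • q) (D + t • q) := by
  have hqq : 0 < TR q q (cR ν A) := by
    refine pp_pos h hr hν hT hA hq fun h1 => ?_
    rw [h1, LinearMap.zero_apply] at hqD
    exact lt_irrefl _ hqD
  obtain ⟨a, ha⟩ : ∃ a, a = cR ν A := ⟨_, rfl⟩
  have hAC : a ∈ CC ν := by rw [ha]; exact cc_amp h.var hν hA
  obtain ⟨ρ, hρ, hball⟩ := Metric.isOpen_iff.1 (cc_open (ν := ν)) _ hAC
  obtain ⟨m, hm⟩ : ∃ m, m = 2 / ρ := ⟨_, rfl⟩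
  have hm0 : 0 < m := by rw [hm]; positivity
  have hmw : ∀ w : Fin r → ℝ, ‖w‖ ≤ 1 → m • a - w ∈ CC ν := by
    intro w hw
    have h3 : m • a - w = m • (a - m⁻¹ • w) := by
      rw [smul_sub, smul_smul, mul_inv_cancel₀ hm0.ne', one_smul]
    rw [h3]
    refine cc_smul hm0 (hball ?_)
    rw [Metric.mem_ball, dist_eq_norm, sub_sub_cancel_left, norm_neg, norm_smul, Real.norm_eq_abs,
      abs_of_pos (inv_pos.2 hm0)]
    have h4 : m⁻¹ * ‖w‖ ≤ m⁻¹ * 1 := mul_le_mul_of_nonneg_left hw (inv_pos.2 hm0).le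
    refine h4.trans_lt ?_
    rw [mul_one, hm, inv_div]
    linarith
  obtain ⟨M, hM0, hM⟩ := ball_bd (f := fun u => TR q q u) (LinearMap.continuous_of_finiteDimensional (TR q q)) 1
  obtain ⟨j₁, hj₁⟩ := lin_ev hqD (m * TR q q a + M + 1)
  obtain ⟨j, hj⟩ : ∃ j, j = max 1 j₁ := ⟨_, rfl⟩
  have hj1 : 1 ≤ j := by rw [hj]; exact le_max_left _ _
  have hj2 := hj₁ j (by rw [hj]; exact le_max_right _ _)
  obtain ⟨x₀, hx₀⟩ := eff_near h hr hν hT hL hA hq hqq hqqq (v := j • D - m • a) (R₀ := 1) (δ := 1) one_pos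
    (fun w hw => by
      have h1 := (abs_le.1 (hM w hw)).1
      simp only [map_add, map_sub, map_smul, smul_eq_mul]
      linarith)
  obtain ⟨W, hW⟩ := near_one (X := X) hν (x₀ • q + (j • D - m • a))
  have hpos := hx₀ W x₀ le_rfl hW
  obtain ⟨Z, hZ⟩ := hasX_of_pos hpos
  obtain ⟨w, hw⟩ : ∃ w, w = cR ν W - (x₀ • q + (j • D - m • a)) := ⟨_, rfl⟩
  rw [← hw] at hW
  have hout : ∀ y, Algebra.trdeg k (X.kap y) = 1 → y ∉ Z → ∀ t : ℝ, x₀ / j ≤ t → 0 ≤ dR hν h.var y (D + t • q) := by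
    intro y hy hyZ t ht
    have h1 : 0 ≤ dz h.var y W := by
      obtain ⟨s, h1, h2⟩ := ex_sec (hasS_pos h.var hA (hasX_res h.var hZ hyZ))
      exact dz_nn h.var h.amp hy h2 h1
    have h4 : (0 : ℝ) ≤ dR hν h.var y (cR ν W) := by
      rw [dR_ci hν h.var h.amp hy]
      exact_mod_cast h1
    have h5 := dR_cc hν h.var hA hy (hmw w hW)
    have h6 : j • (D + t • q) = cR ν W + (m • a - w) + (t * j - x₀) • q := by
      rw [hw]
      module
    have h7 := dR_nef hν h.var hA hy hq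
    have h8 : 0 ≤ t * j - x₀ := by
      rw [div_le_iff₀ (by linarith)] at ht
      linarith
    have h9 : j * dR hν h.var y (D + t • q) = dR hν h.var y (cR ν W) + dR hν h.var y (m • a - w) +
        (t * j - x₀) * dR hν h.var y q := by
      rw [← smul_eq_mul, ← map_smul, h6, map_add, map_add, map_smul (dR hν h.var y) (t * j - x₀), smul_eq_mul]
    have h10 : 0 ≤ j * dR hν h.var y (D + t • q) := by
      rw [h9]
      have := mul_nonneg h8 h7
      linarith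
    exact nonneg_of_mul_nonneg_right h10 (by linarith)
  have hfin := srf_fin h hZ
  have hev : ∀ᶠ t : ℝ in Filter.atTop, ∀ z ∈ {z : X.P | z ∈ Z ∧ Algebra.trdeg k (X.kap z) = 2},
      ∀ y, Cv z y → 0 ≤ dR hν h.var y (D + t • q) := by
    rw [Filter.eventually_all_finite hfin]
    rintro z ⟨-, hz⟩
    obtain ⟨S, hS⟩ := spr_of_trdeg h hz
    obtain ⟨t₀, ht₀⟩ := srf_t h hr hν hT hz hS hA hq hD fun h1 h2 h3 =>
      qss_neg h hr hν hT hA hq hqq hqqq hqD h1 h2 h3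
    filter_upwards [Filter.eventually_ge_atTop t₀] with t ht y hy
    exact ht₀ t ht y hy
  obtain ⟨t₁, ht₁⟩ := Filter.eventually_atTop.1 hev
  obtain ⟨t₂, ht₂⟩ := quad_ev (show 0 < 3 * TR q q D by linarith) (-(3 * TR q D D)) (-TR D D D)
  refine ⟨max (x₀ / j) (max t₁ t₂), fun t ht => ⟨?_, ?_⟩⟩
  · refine Pool.Agent.H89.RS.klm h hr hν hT fun y hy => ?_
    by_cases hyZ : y ∈ Z
    · obtain ⟨z, hzy, hz, hzZ⟩ := hasX_srf h hZ hyZ
      exact ht₁ t (((le_max_left _ _).trans (le_max_right _ _)).trans ht) z ⟨hzZ, hz⟩ y ⟨hzy, hy⟩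
    · exact hout y hy hyZ t ((le_max_left _ _).trans ht)
  · have h1 := ht₂ t (((le_max_right _ _).trans (le_max_right _ _)).trans ht)
    have e1 : TR q D q = TR q q D := tr_s23 hr hν hT _ _ _
    have e2 : TR D q q = TR q q D := by rw [tr_s12 hr hν hT, e1]
    have e3 : TR D q D = TR q D D := tr_s12 hr hν hT _ _ _
    have e4 : TR D D q = TR q D D := by rw [tr_s23 hr hν hT, e3]
    simp only [map_add, map_smul, LinearMap.add_apply, LinearMap.smul_apply, smul_eq_mul, hqqq, e1, e2, e3, e4]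
    nlinarith

end Pool.Agent.H24.RC
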