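import Pool.Agent.H24.RG.LowB
import Pool.Agent.H20.RT.Pp
import Pool.Agent.H89.RT.Hc

/-!
# [H24 RC LowN] THEOREM C (MP_e49dc9_ag): the lower bound near a real nef class `q`, `T(q,q,A) > 0`, in terms of `ν`

`low_nu`: `chi W - C ≤ h0 W` for all `W` with `‖cR ν W - x q‖ ≤ R₀`, `x ≥ x₀`.
`eff_near`: `T(q,q,q) = 0`, `T(q,q,v + w) ≥ δ > 0` for `‖w‖ ≤ R₀`: the `W` with `‖cR ν W - x q - v‖ ≤ R₀` have sections, `x ≥ x₀`.
-/

set_option autoImplicit false

namespace Pool.Agent.H24.RC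

open Pool.Agent.H54.RV Pool.Agent.H83.TU Pool.Agent.H83.TK Pool.Agent.H20.TD Pool.Agent.H20.TP Pool.Agent.H20.RT
open Pool.Agent.H24.VP (RR chS chi)
open Pool.Agent.H24.ZL (t1)
open Pool.Agent.H89.RT (tr_sym bil_bd near_one)

variable {k K : Type} [Field k] [Field K] [Algebra k K] {X : Mod k K} {r : ℕ}
  {ν : Cart X →* Multiplicative (Fin r → ℤ)} {T : Cart X → Cart X → Cart X → ℝ} {l : Cart X → ℝ} {c : ℝ} {TR : Tri3 r}
  {A : Cart X} {q : Fin r → ℝ}

/-- a linear function which is nonnegative on the ample divisors is nonnegative on the nef classes -/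
theorem nef_fn (hX : IsVar X) (hν : NumR ν) (f : (Fin r → ℝ) →ₗ[ℝ] ℝ)
    (hf : ∀ B : Cart X, Ample B → 0 ≤ f (cR ν B)) (hp : q ∈ closure (CC ν)) : 0 ≤ f q := by
  rw [← cl_eq hX hν] at hp
  have h1 : IsClosed {x | 0 ≤ f x} := isClosed_le continuous_const (LinearMap.continuous_of_finiteDimensional f)
  refine closure_minimal ?_ h1 hp
  rintro v ⟨m, cc, D, hc, hD, rfl⟩
  show 0 ≤ f _
  rw [map_sum]
  exact Finset.sum_nonneg fun i _ => by
    rw [map_smul, smul_eq_mul]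
    exact mul_nonneg (hc i).le (hf _ (hD i))

/-- the numerical class of a product -/
theorem cR_gen {G : Fin r → Cart X}
    (hGi : ∀ i, ci ν (G i) = Pi.single i 1) (n : Fin r → ℤ) : ci ν (∏ i, G i ^ n i) = n := by
  classical
  have h3 : ci ν (∏ i, G i ^ n i) = ∑ i, ci ν (G i ^ n i) := by
    unfold ci
    rw [map_prod, toAdd_prod]
  rw [h3]
  funext j
  rw [Finset.sum_apply, Finset.sum_eq_single j]
  · rw [ci_zpow, hGi]
    simp
  · intro i _ hij
    rw [ci_zpow, hGi]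
    simp [Ne.symm hij]
  · intro hj
    exact absurd (Finset.mem_univ j) hj

/-- `T(q,A,A) > 0` -/
theorem qaa_pos [CharZero k] [IsAlgClosed k] [T0Space X.P] (h : Hyp X) (hr : RR T l c) (hν : NumR ν)
    (hT : ∀ U V W, TR (cR ν U) (cR ν V) (cR ν W) = T U V W) (hA : Ample A) (hq : q ∈ closure (CC ν))
    (hqq : 0 < TR q q (cR ν A)) : 0 < TR q (cR ν A) (cR ν A) := by
  have hAC : cR ν A ∈ CC ν := cc_amp h.var hν hA
  have hAc := subset_closure hAC
  rcases (tr_nn h hr hν hT hq hAc hAc).eq_or_lt with h1 | h1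
  · exfalso
    have h2 := pq_zero h hr hν hT hA hq hAc h1.symm
    have h3 : TR q q (cR ν A) = TR q (cR ν A) q := tr_s23 hr hν hT q q (cR ν A)
    rw [h3, h2, LinearMap.zero_apply] at hqq
    exact lt_irrefl _ hqq
  · exact h1

/-- **(LB)** near `x q` -/
theorem low_nu [CharZero k] [IsAlgClosed k] [T0Space X.P] (h : Hyp X) (hr : RR T l c) (hν : NumR ν)
    (hT : ∀ U V W, TR (cR ν U) (cR ν V) (cR ν W) = T U V W) (hA : Ample A) (hq : q ∈ closure (CC ν))
    (hqq : 0 < TR q q (cR ν A)) (R₀ : ℝ) :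
    ∃ C x₀ : ℝ, ∀ (W : Cart X) (x : ℝ), x₀ ≤ x → ‖cR ν W - x • q‖ ≤ R₀ → chi T l c W - C ≤ h0 W 1 := by
  classical
  choose G hG using fun i : Fin r => ci_surj hν (Pi.single i 1)
  have hGR : ∀ i, cR ν (G i) = Pi.single i 1 := fun i => by
    change rv (ci ν (G i)) = _
    rw [hG, rv_single]
  have hq1 : q = ∑ i, q i • cR ν (G i) := by
    funext j
    rw [Finset.sum_apply, Finset.sum_eq_single j]
    · rw [hGR]
      simp
    · intro i _ hij
      rw [hGR]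
      simp [Ne.symm hij]
    · intro hj
      exact absurd (Finset.mem_univ j) hj
  have hs1 : ∀ v w, TR q v w = ∑ i, q i * TR (cR ν (G i)) v w := by
    intro v w
    conv_lhs => rw [hq1]
    rw [map_sum, LinearMap.sum_apply, LinearMap.sum_apply]
    refine Finset.sum_congr rfl fun i _ => ?_
    rw [map_smul, LinearMap.smul_apply, LinearMap.smul_apply, smul_eq_mul]
  have hs2 : ∀ u w, TR u q w = ∑ i, q i * TR u (cR ν (G i)) w := by
    intro u w
    rw [tr_s12 hr hν hT, hs1]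
    refine Finset.sum_congr rfl fun i _ => ?_
    rw [tr_s12 hr hν hT]
  have e1 : ∀ U V, t1 T G q U V = TR q (cR ν U) (cR ν V) := by
    intro U V
    rw [hs1]
    unfold t1
    refine Finset.sum_congr rfl fun i _ => ?_
    rw [hT]
  have e2 : Pool.Agent.H24.ZL.bf T A G q q = TR q q (cR ν A) := by
    rw [hs1]
    unfold Pool.Agent.H24.ZL.bf
    refine Finset.sum_congr rfl fun i _ => ?_
    rw [hs2, Finset.mul_sum]
    refine Finset.sum_congr rfl fun j _ => ?_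
    rw [hT]
    ring
  obtain ⟨C, x₀, hC⟩ := Pool.Agent.H24.RG.low_b' (G := G) (p := q) h hr hA (fun E B hB hW => by
    rw [e1]
    have hs : ∀ v, TR v (cR ν E) (cR ν B) = TR.flip (cR ν E) v (cR ν B) := fun v => rfl
    have h1 := nef_fn h.var hν ((TR.flip (cR ν E)).flip (cR ν B)) (fun A' hA' => by
      show 0 ≤ TR (cR ν A') (cR ν E) (cR ν B)
      rw [hT]
      exact (hW A' hA').le) hq
    exact h1) (by rw [e1]; exact qaa_pos h hr hν hT hA hq hqq) (by rw [e2]; exact hqq) R₀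
  refine ⟨C, x₀, fun W x hx hW => hC W (ci ν W) x (fun U V => ?_) hx fun i => ?_⟩
  · rw [← hT, ← hT]
    have h1 : cR ν (∏ i, G i ^ ci ν W i) = cR ν W := by
      change rv (ci ν _) = rv (ci ν W)
      rw [cR_gen hG]
    rw [h1]
  · have h1 := (norm_le_pi_norm (cR ν W - x • q) i).trans hW
    rw [Real.norm_eq_abs, Pi.sub_apply, Pi.smul_apply, smul_eq_mul] at h1
    exact h1

/-- a continuous function is bounded on a ball -/
theorem ball_bd {f : (Fin r → ℝ) → ℝ} (hf : Continuous f) (M : ℝ) : ∃ C : ℝ, 0 ≤ C ∧ ∀ u, ‖u‖ ≤ M → |f u| ≤ C := by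
  obtain ⟨C, hC⟩ := (isCompact_closedBall (0 : Fin r → ℝ) M).exists_bound_of_continuousOn hf.continuousOn
  refine ⟨max C 0, le_max_right _ _, fun u hu => ?_⟩
  have h1 := hC u (by rwa [mem_closedBall_zero_iff])
  rw [Real.norm_eq_abs] at h1
  exact h1.trans (le_max_left _ _)

/-- **effective classes near `x q + v`** -/
theorem eff_near [CharZero k] [IsAlgClosed k] [T0Space X.P] (h : Hyp X) (hr : RR T l c) (hν : NumR ν)
    (hT : ∀ U V W, TR (cR ν U) (cR ν V) (cR ν W) = T U V W) {L : (Fin r → ℝ) →ₗ[ℝ] ℝ}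
    (hL : ∀ D, L (cR ν D) = l D) (hA : Ample A) (hq : q ∈ closure (CC ν)) (hqq : 0 < TR q q (cR ν A))
    (hqqq : TR q q q = 0) {v : Fin r → ℝ} {R₀ δ : ℝ} (hδ : 0 < δ) (hv : ∀ w, ‖w‖ ≤ R₀ → δ ≤ TR q q (v + w)) :
    ∃ x₀ : ℝ, ∀ (W : Cart X) (x : ℝ), x₀ ≤ x → ‖cR ν W - (x • q + v)‖ ≤ R₀ → 0 < h0 W 1 := by
  obtain ⟨C, x₁, hC⟩ := low_nu h hr hν hT hA hq hqq (‖v‖ + R₀)
  obtain ⟨B₁, hB₁, h1⟩ := ball_bd (f := fun u => TR q u u) (cont3' TR continuous_const continuous_id continuous_id)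
    (‖v‖ + R₀)
  obtain ⟨B₂, hB₂, h2⟩ := ball_bd (f := fun u => TR u u u) (cont3' TR continuous_id continuous_id continuous_id)
    (‖v‖ + R₀)
  obtain ⟨B₃, hB₃, h3⟩ := ball_bd (f := fun u => L u) (LinearMap.continuous_of_finiteDimensional L) (‖v‖ + R₀)
  obtain ⟨x₂, hx₂⟩ := Pool.Agent.H24.ZL.quad_ev (show 0 < δ / 2 by linarith) (B₁ / 2 + |L q|)
    (B₂ / 6 + B₃ + |c| + C)
  refine ⟨max 0 (max x₁ x₂), fun W x hx hW => ?_⟩
  simp only [max_le_iff] at hx
  obtain ⟨hx0, hx1, hx2⟩ := hx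
  have h4 := hx₂ x hx2
  obtain ⟨u, hu⟩ : ∃ u, u = cR ν W - x • q := ⟨_, rfl⟩
  have hWu : cR ν W = x • q + u := by rw [hu]; abel
  obtain ⟨w, hw⟩ : ∃ w, w = cR ν W - (x • q + v) := ⟨_, rfl⟩
  have huw : u = v + w := by rw [hu, hw]; abel
  rw [← hw] at hW
  have hun : ‖u‖ ≤ ‖v‖ + R₀ := by
    rw [huw]
    exact (norm_add_le _ _).trans (add_le_add le_rfl hW)
  have h5 := hC W x hx1 (by rw [← hu]; exact hun)
  have h6 : chi T l c W = (3 * x ^ 2 * TR q q u + 3 * x * TR q u u + TR u u u) / 6 + (x * L q + L u) + c := by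
    unfold chi
    rw [← hT, ← hL, hWu]
    have e1 : TR q u q = TR q q u := tr_s23 hr hν hT _ _ _
    have e2 : TR u q q = TR q q u := by rw [tr_s12 hr hν hT, e1]
    have e3 : TR u q u = TR q u u := tr_s12 hr hν hT _ _ _
    have e4 : TR u u q = TR q u u := by rw [tr_s23 hr hν hT, e3]
    simp only [map_add, map_smul, LinearMap.add_apply, LinearMap.smul_apply, smul_eq_mul, hqqq, e1, e2, e3, e4]
    ring
  rw [h6] at h5
  have h7 : δ ≤ TR q q u := by rw [huw]; exact hv w hW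
  have h8 := (abs_le.1 (h1 u hun)).1
  have h9 := (abs_le.1 (h2 u hun)).1
  have h10 := (abs_le.1 (h3 u hun)).1
  have h11 := neg_abs_le (L q)
  have h12 := neg_abs_le c
  have h13 : x ^ 2 * δ ≤ x ^ 2 * TR q q u := mul_le_mul_of_nonneg_left h7 (sq_nonneg x)
  have h14 : x * -B₁ ≤ x * TR q u u := mul_le_mul_of_nonneg_left h8 hx0
  have h15 : x * -|L q| ≤ x * L q := mul_le_mul_of_nonneg_left h11 hx0
  have h16 : (0 : ℝ) < h0 W 1 := by
    refine lt_of_lt_of_le ?_ h5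
    nlinarith
  exact_mod_cast h16

end Pool.Agent.H24.RC
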